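import Mathlib
import Pool.Agent.Helper77.H3.Defs

/-!
# Threefolds in `P^3 × P^3`: naturality of the system (NAT3)
-/

set_option autoImplicit false

namespace Pool.Agent.Helper82.H3

open Pool.Agent.Helper64.HK Pool.Agent.Helper77.H3 Polynomial
open Pool.Agent.Helper28.HN (I aff)

section nat

variable {a : Fin (1 + 1) → Fin (2 + 1)} {S S' : Type*} [CommRing S] [CommRing S'] (f : S →+* S')
  (c : Ix a → S) (x : Fin 8 → S)

theorem map_vec3 (p q r : S) (i : Fin 3) : f (![p, q, r] i) = ![f p, f q, f r] i := by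
  fin_cases i <;> rfl

theorem map_p0 : (fun e => f (p0 x e)) = p0 fun j => f (x j) := by
  funext e
  exact map_vec3 f _ _ _ _

theorem map_p1 : (fun e => f (p1 x e)) = p1 fun j => f (x j) := by
  funext e
  exact map_vec3 f _ _ _ _

theorem map_rr : (fun e => f (rr x e)) = rr fun j => f (x j) := by
  funext e
  unfold rr
  rw [map_sub, ← map_p0, ← map_p1]

theorem map_lnP (u v : T3 → S) : (fun e => mapRingHom f (lnP u v e)) =
    lnP (fun e => f (u e)) fun e => f (v e) := by
  funext e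
  simp only [lnP, map_add, map_mul, coe_mapRingHom, map_C, map_X]

theorem map_cC : (fun e => mapRingHom f (cC c e)) = cC fun e => f (c e) := by
  funext e
  simp only [cC, coe_mapRingHom, map_C]

theorem map_dv (P : S[X]) (z : S) : f (P.derivative.eval z) =
    (mapRingHom f P).derivative.eval (f z) := by
  rw [coe_mapRingHom, derivative_map, eval_map, eval₂_at_apply]

theorem map_dBz (u : T3 → S) (z : S) (v : T3 → S) : f (dBz c u z v) =
    dBz (fun e => f (c e)) (fun e => f (u e)) (f z) fun e => f (v e) := by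
  unfold dBz
  rw [map_dv, map_zero, map_add, map_mul, map_Ah, map_Bh, map_cC, map_ct, map_lnP, coe_mapRingHom,
    map_C]

theorem map_dFh (u : T3 → S) (z : S) (v : T3 → S) : f (dFh c u z v) =
    dFh (fun e => f (c e)) (fun e => f (u e)) (f z) fun e => f (v e) := by
  unfold dFh
  rw [map_dv, map_zero, map_Fh, map_cC, map_ct, map_lnP, coe_mapRingHom, map_C]

theorem map_dps (u : T3 → S) (z : S) (v : T3 → S) : f (dps c u z v) =
    dps (fun e => f (c e)) (fun e => f (u e)) (f z) fun e => f (v e) := by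
  unfold dps
  rw [map_dv, map_zero, map_psh, map_cC, map_ct, map_lnP, coe_mapRingHom, map_C]

theorem map_zps (u : T3 → S) (z : S) : f (zps c u z) =
    zps (fun e => f (c e)) (fun e => f (u e)) (f z) := by
  unfold zps
  rw [map_dv, coe_mapRingHom, map_psP, map_ct]

theorem map_xi (u : T3 → S) (z : S) : (fun e => f (xi c u z e)) =
    xi (fun e => f (c e)) (fun e => f (u e)) (f z) := by
  funext e
  unfold xi
  have h := congrFun (map_vh c f 1 (Xz c (ct u) z)) e.2
  rw [map_Xz, map_ct] at h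
  exact h

theorem map_Eqn3 (i : Fin 8) : f (Eqn3 c x i) = Eqn3 (fun e => f (c e)) (fun j => f (x j)) i := by
  fin_cases i
  · show f (Fh c (ct (p0 x)) (x 3)) = Fh _ (ct (p0 _)) _
    rw [map_Fh, map_ct, map_p0]
  · show f (Ah c (ct (p0 x)) * x 3 + Bh c (ct (p0 x))) = Ah _ (ct (p0 _)) * _ + Bh _ (ct (p0 _))
    rw [map_add, map_mul, map_Ah, map_Bh, map_ct, map_p0]
  · show f (psh c 1 (ct (p0 x)) (x 3)) = psh _ 1 (ct (p0 _)) _
    rw [map_psh, map_ct, map_p0]
  · show f (dBz c (p0 x) (x 3) (xi c (p0 x) (x 3)) * zps c (p0 x) (x 3) -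
      kah c 1 (ct (p0 x)) (x 3) * Ah c (ct (p0 x))) = dBz _ (p0 _) _ (xi _ (p0 _) _) *
        zps _ (p0 _) _ - kah _ 1 (ct (p0 _)) _ * Ah _ (ct (p0 _))
    rw [map_sub, map_mul, map_mul, map_dBz, map_zps, map_kah, map_Ah, map_xi, map_ct, map_p0]
  · show f (dFh c (p0 x) (x 3) (rr x)) = dFh _ (p0 _) _ (rr _)
    rw [map_dFh, map_p0, map_rr]
  · show f (Fh c (ct (p1 x)) (x 7)) = Fh _ (ct (p1 _)) _
    rw [map_Fh, map_ct, map_p1]
  · show f (Ah c (ct (p1 x)) * x 7 + Bh c (ct (p1 x))) = Ah _ (ct (p1 _)) * _ + Bh _ (ct (p1 _))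
    rw [map_add, map_mul, map_Ah, map_Bh, map_ct, map_p1]
  · show f (dFh c (p1 x) (x 7) (rr x)) = dFh _ (p1 _) _ (rr _)
    rw [map_dFh, map_p1, map_rr]

theorem map_Pp3 : f (Pp3 c x) = Pp3 (fun e => f (c e)) (fun j => f (x j)) := by
  unfold Pp3
  simp only [map_mul, map_sub, map_det_Mx, map_Ah, map_kah, map_dBz, map_dps, map_ct, map_p0,
    map_p1, map_rr, map_xi]

theorem map_ec (b : S[X]) (i : Fin 4) : f (ec b i) = ec (b.map f) i := by
  unfold ec
  fin_cases i <;> simp [map_ofNat f]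

theorem map_G3 (b : Polynomial S) : f (G3 b) = G3 (b.map f) := by
  unfold G3
  simp only [map_mul, map_sub, map_pow, map_ec, map_ofNat]

end nat

end Pool.Agent.Helper82.H3
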