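import Mathlib
import Pool.Agent.Helper82.H3.Nat
import Pool.Agent.Helper76.XN.ET

/-!
# Threefolds in `P^3 × P^3`: existence of configurations from an example (EXIST3)
-/

set_option autoImplicit false

namespace Pool.Agent.Helper82.H3

open Pool.Agent.Helper64.HK Pool.Agent.Helper77.H3 MvPolynomial
open Pool.Agent.Helper28.HN (I aff)

section sp

variable {E J : Type} {L : Type*} [Field L] [Algebra ℚ L]

/-- Specialisation of the coefficients. -/
noncomputable def sp (c : E → L) : MvPolynomial (E ⊕ J) ℚ →ₐ[ℚ] MvPolynomial J L :=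
  aeval (Sum.elim (fun e => C (c e)) X)

theorem sp_pderiv (c : E → L) (j : J) (P : MvPolynomial (E ⊕ J) ℚ) :
    pderiv j (sp c P) = sp c (pderiv (Sum.inr j) P) := by
  classical
  induction P using MvPolynomial.induction_on with
  | C a =>
    rw [show sp c (C a : MvPolynomial (E ⊕ J) ℚ) = C (algebraMap ℚ L a) by
      rw [sp, aeval_C]
      rfl]
    simp
  | add p q hp hq => simp [hp, hq]
  | mul_X p s hp =>
    rw [map_mul, Derivation.leibniz, Derivation.leibniz, map_add, hp]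
    simp only [smul_eq_mul, map_mul]
    congr 2
    rcases s with e | i
    · simp [sp, pderiv_X]
    · simp [sp, pderiv_X, Pi.single_apply]

theorem eval_sp (c : E → L) (x : J → L) (P : MvPolynomial (E ⊕ J) ℚ) :
    eval x (sp c P) = aeval (Sum.elim c x) P := by
  have : ((aeval x : MvPolynomial J L →ₐ[L] L).restrictScalars ℚ).comp (sp c) =
      aeval (Sum.elim c x) := by
    ext s
    rcases s with e | i
    · simp [sp]
    · simp [sp]
  have h := DFunLike.congr_fun this P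
  rw [← h]
  simp [aeval_eq_eval]

end sp

variable {a : Fin (1 + 1) → Fin (2 + 1)}

/-- The universal coefficients. -/
noncomputable def uc (a : Fin (1 + 1) → Fin (2 + 1)) (e : Ix a) :
    MvPolynomial (Ix a ⊕ Fin 8) ℚ := X (Sum.inl e)

/-- The universal unknowns. -/
noncomputable def ux (a : Fin (1 + 1) → Fin (2 + 1)) (j : Fin 8) :
    MvPolynomial (Ix a ⊕ Fin 8) ℚ := X (Sum.inr j)

theorem exists_cfg3_of {a : Fin (1 + 1) → Fin (2 + 1)}
    (b : ∀ {S : Type} [CommRing S], (Ix a → S) → (Fin 8 → S) → Polynomial S)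
    (nb : ∀ {S S' : Type} [CommRing S] [CommRing S'] (f : S →+* S') (c : Ix a → S) (x : Fin 8 → S),
      (b c x).map f = b (fun e => f (c e)) (fun j => f (x j)))
    (c0 : Ix a → ℚ) (x0 : Fin 8 → ℚ)
    (h1 : ∀ i, Eqn3 c0 x0 i = 0) (h2 : Pp3 c0 x0 ≠ 0) (h3 : G3 (b c0 x0) ≠ 0)
    (h4 : (Matrix.of fun i j : Fin 8 => MvPolynomial.eval x0 (MvPolynomial.pderiv j
      (Eqn3 (fun e => MvPolynomial.C (c0 e)) MvPolynomial.X i : MvPolynomial (Fin 8) ℚ))).det ≠ 0) :
    ∃ Δ : MvPolynomial (Ix a) ℚ, Δ ≠ 0 ∧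
    ∀ (K : Type) [Field K] [NumberField K] (c : Ix a → K), MvPolynomial.aeval c Δ ≠ 0 →
      ∃ (L : Type) (_ : Field L) (_ : NumberField L) (_ : Algebra K L) (x : Fin 8 → L),
        (∀ i, Eqn3 (fun e => algebraMap K L (c e)) x i = 0) ∧
        Pp3 (fun e => algebraMap K L (c e)) x ≠ 0 ∧
        G3 (b (fun e => algebraMap K L (c e)) x) ≠ 0 := by
  have ev : ∀ (c : Ix a → ℚ) (x : Fin 8 → ℚ),
      (fun e => eval (Sum.elim c x) (uc a e)) = c ∧
      (fun j => eval (Sum.elim c x) (ux a j)) = x := by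
    intro c x
    constructor
    · funext e
      simp [uc]
    · funext j
      simp [ux]
  have e1 : ∀ i, eval (Sum.elim c0 x0) (Eqn3 (uc a) (ux a) i) = 0 := by
    intro i
    have h := map_Eqn3 (eval (Sum.elim c0 x0) : MvPolynomial (Ix a ⊕ Fin 8) ℚ →+* ℚ) (uc a) (ux a) i
    rw [(ev c0 x0).1, (ev c0 x0).2, h1] at h
    exact h
  have e2 : (Matrix.of fun i j : Fin 8 => eval (Sum.elim c0 x0)
      (pderiv (Sum.inr j) (Eqn3 (uc a) (ux a) i))).det ≠ 0 := by
    have hs : ∀ i, sp c0 (Eqn3 (uc a) (ux a) i) =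
        (Eqn3 (fun e => C (c0 e)) X i : MvPolynomial (Fin 8) ℚ) := by
      intro i
      have h := map_Eqn3 (sp c0 : MvPolynomial (Ix a ⊕ Fin 8) ℚ →ₐ[ℚ]
        MvPolynomial (Fin 8) ℚ).toRingHom (uc a) (ux a) i
      change sp c0 (Eqn3 (uc a) (ux a) i) = _ at h
      rw [h]
      congr 1
      · funext e
        simp [sp, uc]
      · funext j
        simp [sp, ux]
    have hm : (Matrix.of fun i j : Fin 8 => eval (Sum.elim c0 x0)
        (pderiv (Sum.inr j) (Eqn3 (uc a) (ux a) i))) =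
        Matrix.of fun i j : Fin 8 => eval x0 (pderiv j
          (Eqn3 (fun e => C (c0 e)) X i : MvPolynomial (Fin 8) ℚ)) := by
      ext i j
      rw [Matrix.of_apply, Matrix.of_apply, ← hs, sp_pderiv, eval_sp]
      rfl
    rw [hm]
    exact h4
  have e3 : eval (Sum.elim c0 x0) (Pp3 (uc a) (ux a) * G3 (b (uc a) (ux a))) ≠ 0 := by
    have h := map_Pp3 (eval (Sum.elim c0 x0) : MvPolynomial (Ix a ⊕ Fin 8) ℚ →+* ℚ) (uc a) (ux a)
    have h' := map_G3 (eval (Sum.elim c0 x0) : MvPolynomial (Ix a ⊕ Fin 8) ℚ →+* ℚ)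
      (b (uc a) (ux a))
    rw [nb, (ev c0 x0).1, (ev c0 x0).2] at h'
    rw [(ev c0 x0).1, (ev c0 x0).2] at h
    rw [map_mul, h, h']
    exact mul_ne_zero h2 h3
  obtain ⟨Δ, hΔ, H⟩ := Helper76.XN.et (E := Ix a) (I := Fin 8) (fun i => Eqn3 (uc a) (ux a) i)
    (Pp3 (uc a) (ux a) * G3 (b (uc a) (ux a))) c0 x0 e1 e2 e3
  refine ⟨Δ, hΔ, fun K _ _ c hc => ?_⟩
  obtain ⟨L, _, _, _, _, x, g1, g2, g3⟩ := H K c hc
  have hL : NumberField L := NumberField.of_module_finite K L
  have av : (fun e => (aeval (Sum.elim (fun e => algebraMap K L (c e)) x) :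
        MvPolynomial (Ix a ⊕ Fin 8) ℚ →ₐ[ℚ] L).toRingHom (uc a e)) =
        (fun e => algebraMap K L (c e)) ∧
      (fun j => (aeval (Sum.elim (fun e => algebraMap K L (c e)) x) :
        MvPolynomial (Ix a ⊕ Fin 8) ℚ →ₐ[ℚ] L).toRingHom (ux a j)) = x := by
    constructor
    · funext e
      simp [uc]
    · funext j
      simp [ux]
  have g4 : aeval (Sum.elim (fun e => algebraMap K L (c e)) x)
      (Pp3 (uc a) (ux a) * G3 (b (uc a) (ux a))) =
      Pp3 (fun e => algebraMap K L (c e)) x * G3 (b (fun e => algebraMap K L (c e)) x) := by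
    have h := map_Pp3 (aeval (Sum.elim (fun e => algebraMap K L (c e)) x) :
      MvPolynomial (Ix a ⊕ Fin 8) ℚ →ₐ[ℚ] L).toRingHom (uc a) (ux a)
    have h' := map_G3 (aeval (Sum.elim (fun e => algebraMap K L (c e)) x) :
      MvPolynomial (Ix a ⊕ Fin 8) ℚ →ₐ[ℚ] L).toRingHom (b (uc a) (ux a))
    rw [nb, av.1, av.2] at h'
    rw [av.1, av.2] at h
    rw [map_mul]
    exact congrArg₂ (· * ·) h h'
  rw [g4] at g3
  refine ⟨L, inferInstance, hL, inferInstance, x, fun i => ?_, left_ne_zero_of_mul g3,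
    right_ne_zero_of_mul g3⟩
  have h := map_Eqn3 (aeval (Sum.elim (fun e => algebraMap K L (c e)) x) :
    MvPolynomial (Ix a ⊕ Fin 8) ℚ →ₐ[ℚ] L).toRingHom (uc a) (ux a) i
  rw [av.1, av.2] at h
  rw [← h]
  exact g1 i

end Pool.Agent.Helper82.H3
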