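import Mathlib
import Pool.Agent.Helper77.H3.Cfg
import Pool.Agent.Helper77.HK.Chart
import Pool.Agent.Helper15.H3.Quart

/-!
# Threefolds in `P^3 × P^3`: the equation over the chart has no rational root
-/

set_option autoImplicit false

namespace Pool.Agent.Helper82.H3

open Pool.Agent.Helper64.HK Pool.Agent.Helper77.H3
open Pool.Agent.Helper77.HK (NS Dp Ap Bp Cp e2_Ap e2_Dp Dp_ne_of_map)
open Pool.Agent.Helper28.HN (I aff)
open Polynomial

section deg

variable {a : Fin (1 + 1) → Fin (2 + 1)} {S : Type*} [CommRing S]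

/-- The line in the factor `1`. -/
theorem ct_line (u v : T3 → S) :
    ct (lnP u v) = Pool.Agent.Helper64.HK.lp (ct u) (Fin.succ (0 : Fin 1)) (Fin.cons 0 fun i => v (0, i)) := by
  funext l i
  unfold Pool.Agent.Helper64.HK.lp
  refine Fin.cases ?_ (fun l => ?_) l
  · rw [Function.update_of_ne (Fin.succ_ne_zero (0 : Fin 1)).symm]
    simp [ct]
  · have hl : l = 0 := Subsingleton.elim _ _
    subst hl
    rw [Function.update_self]
    refine Fin.cases ?_ (fun i => ?_) i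
    · simp [ct, aff]
    · simp [ct, aff, lnP]

theorem deg_line (c : Ix a → S) (u v : T3 → S) : (bd (cC c) (ct (lnP u v))).natDegree ≤ 8 := by
  rw [ct_line]
  exact deg_bd c (ct u) 0 _

end deg

/-- If a square is `b` times a non zero square, then `b` is a square. -/
theorem sq_of_mul_sq {R : Type*} [CommRing R] [IsDomain R] [IsIntegrallyClosed R] {P b Q : R}
    (h : P ^ 2 = b * Q ^ 2) (hQ : Q ≠ 0) : ∃ g, b = g ^ 2 := by
  have hd : Q ^ 2 ∣ P ^ 2 := ⟨b, by rw [h, mul_comm]⟩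
  obtain ⟨g, rfl⟩ := (IsIntegrallyClosed.pow_dvd_pow_iff two_ne_zero).1 hd
  refine ⟨g, ?_⟩
  have h2 : Q ^ 2 ≠ 0 := pow_ne_zero _ hQ
  refine mul_right_cancel₀ h2 ?_
  rw [← h]
  ring

theorem pp3_facts {a : Fin (1 + 1) → Fin (2 + 1)} {S : Type*} [CommRing S] [IsDomain S]
    (c : Ix a → S) (x : Fin 8 → S) (h : Pp3 c x ≠ 0) :
    (Mx c (ct (p0 x))).det ≠ 0 ∧ Ah c (ct (p0 x)) ≠ 0 := by
  unfold Pp3 at h
  obtain ⟨h, -⟩ := mul_ne_zero_iff.1 h
  obtain ⟨h, -⟩ := mul_ne_zero_iff.1 h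
  obtain ⟨h, -⟩ := mul_ne_zero_iff.1 h
  obtain ⟨h, hA⟩ := mul_ne_zero_iff.1 h
  obtain ⟨hD, -⟩ := mul_ne_zero_iff.1 h
  exact ⟨hD, hA⟩

theorem ns_cfg3 {a : Fin (1 + 1) → Fin (2 + 1)} {L : Type} [Field L] [NumberField L]
    (c : Ix a → L) (x : Fin 8 → L) (h : Cfg3 c x) :
    NS c ∧ Dp c ≠ 0 := by
  obtain ⟨hD, hA⟩ := pp3_facts c x h.hP
  have hDp : Dp c ≠ 0 := Dp_ne_of_map (RingHom.id L) c (p0 x) hD
  refine ⟨?_, hDp⟩
  have hAp : Ap c ≠ 0 := by
    intro h0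
    have := e2_Ap (RingHom.id L) (p0 x) c
    rw [h0, map_zero] at this
    exact hA this.symm
  obtain ⟨q, hq, -, -, hn⟩ := Pool.Agent.Helper15.H3.quart3 c x h.hE h.hP (b3 c x)
    (sq_sub (cC c) (ct (lnP (p0 x) (rr x)))) (deg_line c _ _) h.hG
  intro r0 r1 hr
  by_cases hr1 : r1 = 0
  · subst hr1
    have : Ap c * r0 ^ 2 = 0 := by linear_combination hr
    rcases mul_eq_zero.1 this with h0 | h0
    · exact absurd h0 hAp
    · exact ⟨pow_eq_zero_iff two_ne_zero |>.1 h0, rfl⟩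
  exfalso
  have hs := sq_sub (fun e => MvPolynomial.C (c e) : Ix a → MvPolynomial T3 L)
    (ct MvPolynomial.X)
  have e1 : (Ap c * r0 - Bp c * r1) ^ 2 =
      bd (fun e => MvPolynomial.C (c e) : Ix a → MvPolynomial T3 L) (ct MvPolynomial.X) *
        (Dp c * r1) ^ 2 := by
    change Bp c ^ 2 - Ap c * Cp c = Dp c ^ 2 * _ at hs
    linear_combination Ap c * hr + r1 ^ 2 * hs
  obtain ⟨g, hg⟩ := sq_of_mul_sq e1 (mul_ne_zero hDp hr1)
  set ψ : MvPolynomial T3 L →+* L[X] :=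
    MvPolynomial.eval₂Hom (C : L →+* L[X]) (lnP (p0 x) (rr x)) with hψ
  have e2 : ψ (bd (fun e => MvPolynomial.C (c e) : Ix a → MvPolynomial T3 L)
      (ct MvPolynomial.X)) = b3 c x := by
    rw [map_bd]
    unfold b3
    congr 1
    · funext e
      simp [hψ, cC]
    · exact Pool.Agent.Helper77.HK.e2_ct (C : L →+* L[X]) (lnP (p0 x) (rr x))
  have e3 : (X * (1 - X)) ^ 2 * q = ψ g ^ 2 := by
    rw [← hq, ← e2, hg, map_pow]
  have hX : (X * (1 - X) : L[X]) ≠ 0 := by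
    refine mul_ne_zero X_ne_zero ?_
    intro h0
    have := congrArg (Polynomial.eval 0) h0
    simp at this
  obtain ⟨r, hr⟩ := sq_of_mul_sq (P := ψ g) (b := q) (Q := X * (1 - X)) (by rw [← e3]; ring) hX
  refine hn 1 r ?_
  rw [hr, map_one, one_mul]

end Pool.Agent.Helper82.H3
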